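import Mathlib
import Pool.Agent.helper55.AV.Fin

/-!
# The numbers of 1324-avoiding permutations satisfy no linear recurrence with constant coefficients

`av n` is the number of permutations of length `n` that avoid 1324, written as in the frozen
statement of the problem.  The theorem excludes every nontrivial recurrence
`∑ c i * av (n + i) = 0` (for all large `n`) with constant complex coefficients: the generating
function of 1324-avoiding permutations is not rational.

Idea of the proof: the number `g N` of skew-indecomposable 1324-avoiders of length `N ≥ 2` satisfies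
`g N ≥ ∑ g k * g (N - k)` (a new parallel composition of permutations, `Pool.Agent.AV.mainIneq`).
Hence `∑ av n / γ ^ n ≤ γ` with `γ = lim (av n) ^ (1 / n)`, so `av n = o(γ ^ n)`, which is
impossible for a sequence with a rational generating function.
-/

set_option autoImplicit false

namespace Pool.Agent.Results.MP_571575_co.NotRational

/-- The number of permutations of length `n` that avoid 1324. -/
noncomputable def av (n : ℕ) : ℕ :=
  Nat.card {σ : Equiv.Perm (Fin n) //
    ¬ ∃ f : Fin 4 → Fin n, StrictMono f ∧
      ∀ i j : Fin 4, (σ (f i) < σ (f j) ↔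
        (![0, 2, 1, 3] : Fin 4 → ℕ) i < (![0, 2, 1, 3] : Fin 4 → ℕ) j)}

theorem result : ¬ ∃ (d n₀ : ℕ) (c : Fin (d + 1) → ℂ), (∃ i, c i ≠ 0) ∧
    ∀ n : ℕ, n₀ ≤ n → ∑ i : Fin (d + 1), c i * (av (n + (i : ℕ)) : ℂ) = 0 := by
  rintro ⟨d, n₀, c, ⟨i, hi⟩, h⟩
  obtain ⟨γ, -, -, -, -, hno⟩ := Pool.Agent.AV.main
  refine hno ⟨d, n₀, c, fun h0 => hi (by rw [h0]; rfl), fun n hn => ?_⟩
  have h1 := h n hn
  have h2 : ∀ m, av m = Pool.Agent.AV.s m := fun m => (Pool.Agent.AV.SE.1 m).symm
  simp only [h2] at h1
  exact h1

end Pool.Agent.Results.MP_571575_co.NotRational
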