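import Mathlib
import Pool.Agent.helper55.AV.Fin

/-!
# The generating function of 1324-avoiding permutations is finite at its dominant singularity

`av n` is the number of permutations of length `n` that avoid 1324, written as in the frozen
statement of the problem, and `γ` is its exponential growth rate.  The series `∑ av n / γ ^ n`
converges and its sum is at most `γ`; in particular `av n = o(γ ^ n)`.

Idea of the proof: the number `g N` of skew-indecomposable 1324-avoiders of length `N ≥ 2` satisfies
`g N ≥ ∑ g k * g (N - k)` (a new parallel composition of permutations, `Pool.Agent.AV.mainIneq`).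
So `G x ≥ x + (G x) ^ 2` for the generating function `G` of `g` below the radius of convergence, and
`F = 1 / (1 - G)` is at most `1 / x`.
-/

set_option autoImplicit false

namespace Pool.Agent.Results.MP_571575_co.Subcritical

open Filter Topology

/-- The number of permutations of length `n` that avoid 1324. -/
noncomputable def av (n : ℕ) : ℕ :=
  Nat.card {σ : Equiv.Perm (Fin n) //
    ¬ ∃ f : Fin 4 → Fin n, StrictMono f ∧
      ∀ i j : Fin 4, (σ (f i) < σ (f j) ↔
        (![0, 2, 1, 3] : Fin 4 → ℕ) i < (![0, 2, 1, 3] : Fin 4 → ℕ) j)}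

theorem result : ∃ γ : ℝ, 1 < γ ∧
    Tendsto (fun n : ℕ => (av n : ℝ) ^ ((1 : ℝ) / n)) atTop (𝓝 γ) ∧
    Summable (fun n : ℕ => (av n : ℝ) / γ ^ n) ∧ ∑' n : ℕ, (av n : ℝ) / γ ^ n ≤ γ := by
  obtain ⟨γ, h1, h2, h3, h4, -⟩ := Pool.Agent.AV.main
  have h : ∀ m, av m = Pool.Agent.AV.s m := fun m => (Pool.Agent.AV.SE.1 m).symm
  simp only [h]
  exact ⟨γ, h1, h2, h3, h4⟩

end Pool.Agent.Results.MP_571575_co.Subcritical
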